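import Pool.Agent.H461R3.Jacobi

set_option autoImplicit false

namespace Pool.Agent.H461R3

open Finset

section UFD

variable {K R : Type*} [CommRing K] [CommRing R] [IsDomain R] [UniqueFactorizationMonoid R]
  [CharP R 2] [Algebra K R]

theorem deriv_even_pow (d : Derivation K R R) (p : R) (a : ℕ) (ha : Even a) (q : R) :
    d (p ^ a * q) = p ^ a * d q := by
  obtain ⟨k, rfl⟩ := ha
  rw [Derivation.leibniz, Derivation.leibniz_pow]
  have h2 : (k + k) • (p ^ (k + k - 1) • d p) = 0 := by
    rw [add_nsmul]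
    exact CharTwo.add_self_eq_zero _
  rw [h2]
  simp

theorem deriv_zero_of_even (d : Derivation K R R) (hunit : ∀ u : R, IsUnit u → d u = 0)
    (E : R) (hE : E ≠ 0)
    (h : ∀ p : R, Prime p → ∀ (a : ℕ) (q : R), E = p ^ a * q → ¬ p ∣ q → Even a) :
    d E = 0 := by
  induction E using (wellFounded_dvdNotUnit (α := R)).induction with
  | _ E ih =>
    by_cases hu : IsUnit E
    · exact hunit E hu
    · obtain ⟨p, hp, hpE⟩ := WfDvdMonoid.exists_irreducible_factor hu hE
      have hpp : Prime p := UniqueFactorizationMonoid.irreducible_iff_prime.mp hp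
      obtain ⟨a, q, hq, hEq⟩ := WfDvdMonoid.max_power_factor hE hp
      have hev := h p hpp a q hEq hq
      have ha0 : a ≠ 0 := by
        rintro rfl
        rw [pow_zero, one_mul] at hEq
        exact hq (hEq ▸ hpE)
      have hq0 : q ≠ 0 := by
        rintro rfl
        exact hq (dvd_zero _)
      have hdq : d q = 0 := by
        apply ih q
        · refine ⟨hq0, p ^ a, ?_, ?_⟩
          · rw [isUnit_pow_iff ha0]
            exact hpp.not_unit
          · rw [hEq, mul_comm]
        · exact hq0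
        · intro p' hp' a' q' hqq' hpq'
          by_cases hass : p' ∣ p
          · -- then `p ∣ p'`, so `a' = 0`
            have hass2 : p ∣ p' := ((hp'.irreducible.associated_of_dvd hp hass)).symm.dvd
            rcases Nat.eq_zero_or_pos a' with h0 | h0
            · rw [h0]; exact Even.zero
            · exfalso
              apply hq
              rw [hqq']
              exact (hass2.trans (dvd_pow_self p' h0.ne')).trans (Dvd.intro _ rfl)
          · apply h p' hp' a' (p ^ a * q')
            · rw [hEq, hqq']; ring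
            · intro hd
              rcases hp'.dvd_or_dvd hd with h1 | h1
              · exact hass (hp'.dvd_of_dvd_pow h1)
              · exact hpq' h1
      rw [hEq, deriv_even_pow d p a hev, hdq, mul_zero]

theorem pow_exp_unique (p : R) (hp : Prime p) (a b : ℕ) (q r : R) (h : p ^ a * q = p ^ b * r)
    (hq : ¬ p ∣ q) (hr : ¬ p ∣ r) : a = b := by
  rcases lt_trichotomy a b with hab | hab | hab
  · exfalso
    obtain ⟨c, rfl⟩ := Nat.exists_eq_add_of_lt hab
    rw [show a + c + 1 = a + (c + 1) by ring, pow_add, mul_assoc] at h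
    have := mul_left_cancel₀ (pow_ne_zero a hp.ne_zero) h
    apply hq
    rw [this, pow_succ, mul_comm _ p, mul_assoc]
    exact Dvd.intro _ rfl
  · exact hab
  · exfalso
    obtain ⟨c, rfl⟩ := Nat.exists_eq_add_of_lt hab
    rw [show b + c + 1 = b + (c + 1) by ring, pow_add, mul_assoc] at h
    have := mul_left_cancel₀ (pow_ne_zero b hp.ne_zero) h
    apply hr
    rw [← this, pow_succ, mul_comm _ p, mul_assoc]
    exact Dvd.intro _ rfl

/-- If all exponents of primes in `D₁` and `D₂` are odd or zero, and the two have the same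
prime divisors, then `D₂ ∂D₁ = D₁ ∂D₂` in characteristic 2. -/
theorem log_deriv_eq (d : Derivation K R R) (hunit : ∀ u : R, IsUnit u → d u = 0)
    (D₁ D₂ : R) (h1 : D₁ ≠ 0) (h2 : D₂ ≠ 0)
    (o1 : ∀ p : R, Prime p → ∀ (a : ℕ) (q : R), D₁ = p ^ a * q → ¬ p ∣ q → a = 0 ∨ Odd a)
    (o2 : ∀ p : R, Prime p → ∀ (a : ℕ) (q : R), D₂ = p ^ a * q → ¬ p ∣ q → a = 0 ∨ Odd a)
    (hd : ∀ p : R, Prime p → (p ∣ D₁ ↔ p ∣ D₂)) :
    D₂ * d D₁ = D₁ * d D₂ := by
  have hz : d (D₁ * D₂) = 0 := by
    refine deriv_zero_of_even d hunit _ (mul_ne_zero h1 h2) ?_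
    intro p hp a q hEq hq
    obtain ⟨a1, q1, hq1, he1⟩ := WfDvdMonoid.max_power_factor h1 hp.irreducible
    obtain ⟨a2, q2, hq2, he2⟩ := WfDvdMonoid.max_power_factor h2 hp.irreducible
    have haa : a = a1 + a2 := by
      apply pow_exp_unique p hp a (a1 + a2) q (q1 * q2)
      · rw [← hEq, he1, he2, pow_add]; ring
      · exact hq
      · intro hh
        rcases hp.dvd_or_dvd hh with h | h
        · exact hq1 h
        · exact hq2 h
    rw [haa]
    by_cases hpd : p ∣ D₁
    · have hpd2 := (hd p hp).mp hpd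
      have n1 : a1 ≠ 0 := by
        rintro rfl
        rw [pow_zero, one_mul] at he1
        exact hq1 (he1 ▸ hpd)
      have n2 : a2 ≠ 0 := by
        rintro rfl
        rw [pow_zero, one_mul] at he2
        exact hq2 (he2 ▸ hpd2)
      exact ((o1 p hp a1 q1 he1 hq1).resolve_left n1).add_odd
        ((o2 p hp a2 q2 he2 hq2).resolve_left n2)
    · have hpd2 : ¬ p ∣ D₂ := fun h => hpd ((hd p hp).mpr h)
      have n1 : a1 = 0 := by
        by_contra hn
        apply hpd
        rw [he1]
        exact (dvd_pow_self p hn).trans (Dvd.intro _ rfl)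
      have n2 : a2 = 0 := by
        by_contra hn
        apply hpd2
        rw [he2]
        exact (dvd_pow_self p hn).trans (Dvd.intro _ rfl)
      rw [n1, n2]
      exact Even.zero
  rw [Derivation.leibniz, smul_eq_mul, smul_eq_mul] at hz
  have := CharTwo.add_eq_zero.mp hz
  exact this.symm

end UFD

section Gen

variable (K : Type*) [Field K] [CharP K 2] {ι Γ : Type*} [Fintype ι] [DecidableEq ι]
  [Group Γ] [Fintype Γ] [DecidableEq Γ]

/-- generic element -/
noncomputable def gen (ρ : ι ≃ Γ) : MonoidAlgebra (MvPolynomial ι K) Γ :=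
  ∑ i, MonoidAlgebra.single (ρ i) (MvPolynomial.X i)

omit [CharP K 2] [DecidableEq ι] [Fintype Γ] [DecidableEq Γ] in
theorem gen_coeff (ρ : ι ≃ Γ) (g : Γ) :
    (gen K ρ).coeff g = MvPolynomial.X (ρ.symm g) := by
  classical
  rw [gen, MonoidAlgebra.coeff_sum, Finsupp.finsetSum_apply]
  rw [Finset.sum_eq_single (ρ.symm g)]
  · simp
  · intro b _ hb
    rw [MonoidAlgebra.coeff_single, Finsupp.single_apply, if_neg]
    rintro rfl
    simp at hb
  · simp

omit [CharP K 2] [DecidableEq ι] in
theorem gdet_gen_ne (ρ : ι ≃ Γ) : gdet (gen K ρ) ≠ 0 := by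
  intro h
  let f : MvPolynomial ι K →+* K := MvPolynomial.eval (fun i => if ρ i = 1 then 1 else 0)
  have h1 : MonoidAlgebra.mapRingHom Γ f (gen K ρ) = 1 := by
    ext g
    rw [MonoidAlgebra.coeff_mapRingHom, gen_coeff]
    by_cases hg : g = 1
    · subst hg
      simp [f, MonoidAlgebra.one_def]
    · simp [f, MonoidAlgebra.one_def, hg, Finsupp.single_apply, Ne.symm hg]
  have h2 := gdet_map f (gen K ρ)
  rw [h1, gdet_one, h, map_zero] at h2
  exact one_ne_zero h2

omit [CharP K 2] in
theorem pderiv_gdet (ρ : ι ≃ Γ) (i : ι) :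
    MvPolynomial.pderiv i (gdet (gen K ρ)) =
      (Fintype.card Γ : MvPolynomial ι K) * (adjE (gen K ρ)).coeff (ρ i)⁻¹ := by
  rw [gdet, deriv_det, regM_adjE _ (gdet_gen_ne K ρ)]
  have h1 : (regM (MvPolynomial ι K) Γ (gen K ρ)).map (MvPolynomial.pderiv i) =
      regM (MvPolynomial ι K) Γ (MonoidAlgebra.single (ρ i) 1) := by
    ext1 a b
    rw [Matrix.map_apply, regM_apply, regM_apply, gen_coeff, MvPolynomial.pderiv_X,
      MonoidAlgebra.coeff_single, Finsupp.single_apply, Pi.single_apply]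
    congr 1
    rw [Equiv.symm_apply_eq]
    exact propext ⟨fun h => h.symm, fun h => h.symm⟩
  rw [h1, ← map_mul, regM_trace, MonoidAlgebra.coeff_mul_single_apply]
  simp

theorem odd_cast (hodd : Odd (Fintype.card Γ)) : (Fintype.card Γ : MvPolynomial ι K) = 1 := by
  obtain ⟨k, hk⟩ := hodd
  rw [hk]
  push_cast
  rw [CharTwo.two_eq_zero, zero_mul, zero_add]

theorem pderiv_gdet' (hodd : Odd (Fintype.card Γ)) (ρ : ι ≃ Γ) (i : ι) :
    MvPolynomial.pderiv i (gdet (gen K ρ)) = (adjE (gen K ρ)).coeff (ρ i)⁻¹ := by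
  rw [pderiv_gdet, odd_cast K hodd, one_mul]

theorem adjE_gen (hodd : Odd (Fintype.card Γ)) (ρ : ι ≃ Γ) :
    adjE (gen K ρ) =
      ∑ i, MonoidAlgebra.single (ρ i)⁻¹ (MvPolynomial.pderiv i (gdet (gen K ρ))) := by
  classical
  ext1
  ext1 g
  rw [MonoidAlgebra.coeff_sum, Finsupp.finsetSum_apply]
  rw [Finset.sum_eq_single (ρ.symm g⁻¹)]
  · rw [pderiv_gdet' K hodd]
    simp
  · intro b _ hb
    rw [MonoidAlgebra.coeff_single, Finsupp.single_apply, if_neg]
    rintro rfl
    simp at hb
  · simp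

theorem gen_odd (hodd : Odd (Fintype.card Γ)) (ρ : ι ≃ Γ) (p : MvPolynomial ι K) (hp : Prime p)
    (a : ℕ) (q : MvPolynomial ι K) (hD : gdet (gen K ρ) = p ^ a * q) (hq : ¬ p ∣ q) :
    a = 0 ∨ Odd a := by
  by_contra hcon
  push Not at hcon
  obtain ⟨ha0, hno⟩ := hcon
  have hev : Even a := Nat.not_odd_iff_even.mp hno
  let w : MonoidAlgebra (MvPolynomial ι K) Γ :=
    ∑ i, MonoidAlgebra.single (ρ i)⁻¹ (MvPolynomial.pderiv i q)
  have hw : adjE (gen K ρ) = p ^ a • w := by
    rw [adjE_gen K hodd, Finset.smul_sum]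
    refine Finset.sum_congr rfl fun i _ => ?_
    rw [hD, deriv_even_pow _ _ _ hev, MonoidAlgebra.smul_single, smul_eq_mul]
  have h1 := mul_adjE (gen K ρ)
  rw [hw, hD, mul_smul, mul_smul_comm] at h1
  have hpa : p ^ a ≠ 0 := pow_ne_zero _ hp.ne_zero
  have h2 : gen K ρ * w = q • 1 := by
    ext1
    ext1 g
    have h3 := congrArg (fun z => z.coeff g) h1
    simp only [MonoidAlgebra.coeff_smul, Finsupp.smul_apply, smul_eq_mul] at h3
    exact mul_left_cancel₀ hpa (by simpa using h3)
  have h4 := congrArg gdet h2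
  rw [gdet_mul, gdet_smul_one, hD] at h4
  apply hq
  apply hp.dvd_of_dvd_pow (n := Fintype.card Γ)
  rw [← h4]
  obtain ⟨k, rfl⟩ := Nat.exists_eq_succ_of_ne_zero ha0
  exact ⟨p ^ k * q * gdet w, by rw [pow_succ]; ring⟩

omit [CharP K 2] [Fintype ι] [DecidableEq ι] in
theorem pderiv_unit (i : ι) (u : MvPolynomial ι K) (hu : IsUnit u) :
    MvPolynomial.pderiv i u = 0 := by
  obtain ⟨r, _, rfl⟩ := MvPolynomial.isUnit_iff_eq_C_of_isReduced.mp hu
  exact MvPolynomial.pderiv_C

end Gen

section Push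

variable {B : Type*} [CommRing B] {G H : Type*}

/-- linear extension of a map of the bases -/
noncomputable def psh (τ : G → H) : MonoidAlgebra B G →ₗ[B] MonoidAlgebra B H where
  toFun := MonoidAlgebra.mapDomain τ
  map_add' := MonoidAlgebra.mapDomain_add τ
  map_smul' := by
    intro c x
    ext1
    simp [Finsupp.mapDomain_smul]

theorem psh_single (τ : G → H) (g : G) (c : B) :
    psh τ (MonoidAlgebra.single g c) = MonoidAlgebra.single (τ g) c := by
  show MonoidAlgebra.mapDomain τ _ = _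
  rw [MonoidAlgebra.mapDomain_single]

end Push

section Main

variable (K : Type*) [Field K] [CharP K 2] {G H : Type*} [Group G] [Group H] [Fintype G]
  [Fintype H] [DecidableEq G] [DecidableEq H]

/-- the key identity for the generic elements -/
theorem key (hodd : Odd (Fintype.card G)) (hcard : Fintype.card G = Fintype.card H)
    (ρ : G ≃ H)
    (hd : ∀ p : MvPolynomial G K, Prime p →
      (p ∣ gdet (gen K (Equiv.refl G)) ↔ p ∣ gdet (gen K ρ))) :
    psh (fun g => (ρ g⁻¹)⁻¹) (adjE (gen K (Equiv.refl G))) * gen K ρ =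
      gdet (gen K (Equiv.refl G)) • 1 := by
  have hoddH : Odd (Fintype.card H) := hcard ▸ hodd
  have hne := gdet_gen_ne K ρ
  have hD : gdet (gen K ρ) • psh (fun g => (ρ g⁻¹)⁻¹) (adjE (gen K (Equiv.refl G))) =
      gdet (gen K (Equiv.refl G)) • adjE (gen K ρ) := by
    rw [adjE_gen K hodd, adjE_gen K hoddH, map_sum, Finset.smul_sum, Finset.smul_sum]
    refine Finset.sum_congr rfl fun i _ => ?_
    rw [psh_single, MonoidAlgebra.smul_single, MonoidAlgebra.smul_single]
    simp only [Equiv.refl_apply, inv_inv, smul_eq_mul]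
    congr 1
    exact log_deriv_eq _ (pderiv_unit K i) _ _ (gdet_gen_ne K _) hne
      (fun p hp a q => gen_odd K hodd _ p hp a q) (fun p hp a q => gen_odd K hoddH _ p hp a q) hd
  have h2 : gdet (gen K ρ) •
      (psh (fun g => (ρ g⁻¹)⁻¹) (adjE (gen K (Equiv.refl G))) * gen K ρ) =
      gdet (gen K ρ) • (gdet (gen K (Equiv.refl G)) • 1) := by
    rw [← smul_mul_assoc, hD, smul_mul_assoc, adjE_mul, smul_comm]
  ext1
  ext1 g
  have h3 := congrArg (fun z => z.coeff g) h2
  simp only [MonoidAlgebra.coeff_smul, Finsupp.smul_apply, smul_eq_mul] at h3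
  exact mul_left_cancel₀ hne (by simpa using h3)

end Main

end Pool.Agent.H461R3
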