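import Pool.Agent.H461R3.Core

set_option autoImplicit false

namespace Pool.Agent.H461R3

open Finset PowerSeries

section CK

variable {K : Type*} [Field K] {G : Type*} [Group G] [Fintype G] [DecidableEq G]

/-- constant embedding -/
noncomputable def iC : MonoidAlgebra K G →+* MonoidAlgebra (PowerSeries K) G :=
  MonoidAlgebra.mapRingHom G (PowerSeries.C (R := K))

/-- coefficient of `X ^ k` -/
noncomputable def ck (k : ℕ) (Z : MonoidAlgebra (PowerSeries K) G) : MonoidAlgebra K G :=
  MonoidAlgebra.map (PowerSeries.coeff (R := K) k).toAddMonoidHom Z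

theorem ck_coeff (k : ℕ) (Z : MonoidAlgebra (PowerSeries K) G) (g : G) :
    (ck k Z).coeff g = PowerSeries.coeff k (Z.coeff g) := by
  simp [ck]

theorem ck_add (k : ℕ) (Y Z : MonoidAlgebra (PowerSeries K) G) :
    ck k (Y + Z) = ck k Y + ck k Z := by
  ext1
  ext1 g
  simp [ck_coeff]

theorem ck_mul (k : ℕ) (Z : MonoidAlgebra (PowerSeries K) G) (a : MonoidAlgebra K G) :
    ck k (Z * iC a) = ck k Z * a := by
  induction a using MonoidAlgebra.induction_linear with
  | zero => 
    ext1
    ext1 g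
    simp [ck_coeff]
  | add x y hx hy => rw [map_add, mul_add, ck_add, hx, hy, mul_add]
  | single g r =>
    ext1
    ext1 h
    rw [ck_coeff, iC, MonoidAlgebra.mapRingHom_single, MonoidAlgebra.coeff_mul_single_apply,
      MonoidAlgebra.coeff_mul_single_apply, ck_coeff, PowerSeries.coeff_mul_C]

theorem ck_X_succ (k : ℕ) (Z : MonoidAlgebra (PowerSeries K) G) :
    ck (k + 1) ((PowerSeries.X : PowerSeries K) • Z) = ck k Z := by
  ext1
  ext1 g
  simp [ck_coeff]

theorem ck_X_zero (Z : MonoidAlgebra (PowerSeries K) G) :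
    ck 0 ((PowerSeries.X : PowerSeries K) • Z) = 0 := by
  ext1
  ext1 g
  simp [ck_coeff]

theorem ck_one_zero : ck 0 (1 : MonoidAlgebra (PowerSeries K) G) = 1 := by
  ext1
  ext1 g
  rw [ck_coeff, MonoidAlgebra.one_def, MonoidAlgebra.one_def, MonoidAlgebra.coeff_single,
    MonoidAlgebra.coeff_single, Finsupp.single_apply, Finsupp.single_apply]
  split_ifs <;> simp

theorem ck_one_succ (k : ℕ) : ck (k + 1) (1 : MonoidAlgebra (PowerSeries K) G) = 0 := by
  ext1
  ext1 g
  rw [ck_coeff, MonoidAlgebra.one_def, 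
    MonoidAlgebra.coeff_single, Finsupp.single_apply]
  split_ifs <;> simp [PowerSeries.coeff_one]

end CK

section PshMap

variable {B C : Type*} [CommRing B] [CommRing C] {G H : Type*}

theorem psh_map [Fintype G] [Monoid G] [Monoid H] (f : B →+* C) (τ : G → H)
    (W : MonoidAlgebra B G) :
    psh τ (MonoidAlgebra.mapRingHom G f W) = MonoidAlgebra.mapRingHom H f (psh τ W) := by
  induction W using MonoidAlgebra.induction_linear with
  | zero => simp
  | add x y hx hy => rw [map_add, map_add, map_add, map_add, hx, hy]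
  | single g r =>
    rw [psh_single, MonoidAlgebra.mapRingHom_single, MonoidAlgebra.mapRingHom_single, psh_single]

theorem psh_coeff (ρ : G ≃ H) (a : MonoidAlgebra B G) (h : H) :
    (psh (⇑ρ) a).coeff h = a.coeff (ρ.symm h) := by
  induction a using MonoidAlgebra.induction_linear with
  | zero => simp
  | add x y hx hy => 
    rw [map_add, MonoidAlgebra.coeff_add, Finsupp.add_apply, hx, hy]
    rfl
  | single g r =>
    classical
    rw [psh_single, MonoidAlgebra.coeff_single, MonoidAlgebra.coeff_single, Finsupp.single_apply,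
      Finsupp.single_apply]
    congr 1
    rw [Equiv.eq_symm_apply]

end PshMap

section Expansion

variable {K : Type*} [Field K] {G H : Type*} [Group G] [Group H] [Fintype G]
  [Fintype H] [DecidableEq G] [DecidableEq H]

theorem psh_ck (τ : G → H) (k : ℕ) (Z : MonoidAlgebra (PowerSeries K) G) :
    psh τ (ck k Z) = ck k (psh τ Z) := by
  induction Z using MonoidAlgebra.induction_linear with
  | zero => 
    have h0 : ck k (0 : MonoidAlgebra (PowerSeries K) G) = 0 := by
      ext1; ext1 g; simp [ck_coeff]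
    have h1 : ck k (0 : MonoidAlgebra (PowerSeries K) H) = 0 := by
      ext1; ext1 g; simp [ck_coeff]
    rw [h0, map_zero, map_zero, h1]
  | add x y hx hy => rw [ck_add, map_add, map_add, ck_add, hx, hy]
  | single g r =>
    simp only [ck, MonoidAlgebra.map_single, psh_single]

/-- the element `1 - X a - X² b` -/
noncomputable def yE (a b : MonoidAlgebra K G) : MonoidAlgebra (PowerSeries K) G :=
  1 - (PowerSeries.X : PowerSeries K) • iC a -
    (PowerSeries.X : PowerSeries K) • (PowerSeries.X : PowerSeries K) • iC b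

/-- specialisation -/
noncomputable def yf (a b : MonoidAlgebra K G) (g : G) : PowerSeries K :=
  (if g = 1 then 1 else 0) - PowerSeries.X * PowerSeries.C (a.coeff g) -
    PowerSeries.X * (PowerSeries.X * PowerSeries.C (b.coeff g))

theorem yE_coeff (a b : MonoidAlgebra K G) (g : G) : (yE a b).coeff g = yf a b g := by
  rw [yE, yf, MonoidAlgebra.coeff_sub, MonoidAlgebra.coeff_sub, Finsupp.sub_apply,
    Finsupp.sub_apply, MonoidAlgebra.coeff_smul, MonoidAlgebra.coeff_smul,
    MonoidAlgebra.coeff_smul, Finsupp.smul_apply, Finsupp.smul_apply, Finsupp.smul_apply,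
    smul_eq_mul, smul_eq_mul, smul_eq_mul, iC, MonoidAlgebra.coeff_mapRingHom,
    MonoidAlgebra.coeff_mapRingHom, MonoidAlgebra.one_def, MonoidAlgebra.coeff_single,
    Finsupp.single_apply]
  simp only [eq_comm]

theorem rec_of_inv (V : MonoidAlgebra (PowerSeries K) G) (a b : MonoidAlgebra K G)
    (h : V * yE a b = 1) :
    ck 0 V = 1 ∧ ck 1 V = a ∧ ∀ k, ck (k + 2) V = ck (k + 1) V * a + ck k V * b := by
  have h1 : V = 1 + ((PowerSeries.X : PowerSeries K) • (V * iC a) +
      (PowerSeries.X : PowerSeries K) • (PowerSeries.X : PowerSeries K) • (V * iC b)) := by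
    rw [yE, mul_sub, mul_sub, mul_one, mul_smul_comm, mul_smul_comm, mul_smul_comm] at h
    rw [← h]
    abel
  have e0 : ck 0 V = 1 := by
    rw [h1, ck_add, ck_add, ck_X_zero, ck_X_zero, ck_one_zero]
    simp
  refine ⟨e0, ?_, ?_⟩
  · have : ck (0 + 1) V = a := by
      rw [h1, ck_add, ck_add, ck_X_succ, ck_X_succ, ck_X_zero, ck_one_succ, ck_mul, e0]
      simp
    exact this
  · intro k
    have : ck (k + 1 + 1) V = ck (k + 1) V * a + ck k V * b := by
      conv_lhs => rw [h1]
      rw [ck_add, ck_add, ck_X_succ, ck_X_succ, ck_X_succ, ck_one_succ, ck_mul, ck_mul]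
      simp
    exact this

theorem expansion [CharP K 2] (hodd : Odd (Fintype.card G))
    (hcard : Fintype.card G = Fintype.card H) (ρ : G ≃ H) (hρ : ρ 1 = 1)
    (hd : ∀ p : MvPolynomial G K, Prime p →
      (p ∣ gdet (gen K (Equiv.refl G)) ↔ p ∣ gdet (gen K ρ)))
    (a b : MonoidAlgebra K G) :
    ∃ v : ℕ → MonoidAlgebra K G,
      (v 0 = 1 ∧ v 1 = a ∧ ∀ k, v (k + 2) = v (k + 1) * a + v k * b) ∧
      (psh (fun g => (ρ g⁻¹)⁻¹) (v 0) = 1 ∧ psh (fun g => (ρ g⁻¹)⁻¹) (v 1) = psh ρ a ∧
        ∀ k, psh (fun g => (ρ g⁻¹)⁻¹) (v (k + 2)) =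
          psh (fun g => (ρ g⁻¹)⁻¹) (v (k + 1)) * psh ρ a +
            psh (fun g => (ρ g⁻¹)⁻¹) (v k) * psh ρ b) := by
  set τ : G → H := fun g => (ρ g⁻¹)⁻¹ with hτ
  let f : MvPolynomial G K →+* PowerSeries K := (MvPolynomial.aeval (yf a b)).toRingHom
  have hfX : ∀ g, f (MvPolynomial.X g) = yf a b g := fun g => MvPolynomial.aeval_X _ _
  have hg1 : MonoidAlgebra.mapRingHom G f (gen K (Equiv.refl G)) = yE a b := by
    ext1
    ext1 g
    rw [MonoidAlgebra.coeff_mapRingHom, gen_coeff, yE_coeff, hfX]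
    rfl
  have hg2 : MonoidAlgebra.mapRingHom H f (gen K ρ) = yE (psh ρ a) (psh ρ b) := by
    ext1
    ext1 g
    rw [MonoidAlgebra.coeff_mapRingHom, gen_coeff, yE_coeff, hfX, yf, yf, psh_coeff, psh_coeff]
    congr 3
    rw [Equiv.symm_apply_eq, hρ]
  set D := gdet (gen K (Equiv.refl G)) with hD
  have hconst : PowerSeries.constantCoeff (f D) = 1 := by
    have h1 := gdet_map ((PowerSeries.constantCoeff (R := K)).comp f) (gen K (Equiv.refl G))
    have h2 : MonoidAlgebra.mapRingHom G ((PowerSeries.constantCoeff (R := K)).comp f)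
        (gen K (Equiv.refl G)) = 1 := by
      ext1
      ext1 g
      rw [MonoidAlgebra.coeff_mapRingHom, gen_coeff, RingHom.comp_apply, hfX, yf,
        MonoidAlgebra.one_def, MonoidAlgebra.coeff_single, Finsupp.single_apply]
      by_cases hg : g = 1
      · simp [hg]
      · simp [hg, Ne.symm hg]
    rw [h2, gdet_one] at h1
    exact h1.symm
  have hunit : IsUnit (f D) := by
    rw [PowerSeries.isUnit_iff_constantCoeff, hconst]
    exact isUnit_one
  obtain ⟨u, hu⟩ := hunit.exists_left_inv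
  let W := MonoidAlgebra.mapRingHom G f (adjE (gen K (Equiv.refl G)))
  have hW : W * yE a b = f D • 1 := by
    rw [← hg1, ← map_mul, adjE_mul]
    ext1
    ext1 g
    simp [MonoidAlgebra.one_def, Finsupp.single_apply]
    split_ifs <;> simp [hD]
  have hW2 : psh τ W * yE (psh ρ a) (psh ρ b) = f D • 1 := by
    rw [← hg2, psh_map, ← map_mul, key K hodd hcard ρ hd]
    ext1
    ext1 g
    simp [MonoidAlgebra.one_def, Finsupp.single_apply]
    split_ifs <;> simp [hD]
  have hV : (u • W) * yE a b = 1 := by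
    rw [smul_mul_assoc, hW, smul_smul, hu, one_smul]
  have hV2 : psh τ (u • W) * yE (psh ρ a) (psh ρ b) = 1 := by
    rw [map_smul, smul_mul_assoc, hW2, smul_smul, hu, one_smul]
  refine ⟨fun k => ck k (u • W), rec_of_inv _ _ _ hV, ?_⟩
  have := rec_of_inv _ _ _ hV2
  simp only [psh_ck]
  exact this

/-- The bijection induces a unital quadratic Jordan homomorphism. -/
theorem jordan [CharP K 2] (hodd : Odd (Fintype.card G))
    (hcard : Fintype.card G = Fintype.card H) (ρ : G ≃ H) (hρ : ρ 1 = 1)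
    (hd : ∀ p : MvPolynomial G K, Prime p →
      (p ∣ gdet (gen K (Equiv.refl G)) ↔ p ∣ gdet (gen K ρ)))
    (a b : MonoidAlgebra K G) :
    psh (⇑ρ) (a * b * a) = psh ρ a * psh ρ b * psh ρ a := by
  have hE := expansion hodd hcard ρ hρ hd
  set τ : G → H := fun g => (ρ g⁻¹)⁻¹ with hτ
  -- first order: the two maps agree
  have h1 : ∀ c : MonoidAlgebra K G, psh τ c = psh ρ c := by
    intro c
    obtain ⟨v, ⟨_, hv1, _⟩, ⟨_, hw1, _⟩⟩ := hE c 0
    rw [← hw1, hv1]
  have hE' : ∀ c d : MonoidAlgebra K G,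
      psh ρ (c * c + d) = psh ρ c * psh ρ c + psh ρ d ∧
      psh ρ ((c * c + d) * c + c * d) =
        (psh ρ c * psh ρ c + psh ρ d) * psh ρ c + psh ρ c * psh ρ d ∧
      psh ρ (((c * c + d) * c + c * d) * c + (c * c + d) * d) =
        ((psh ρ c * psh ρ c + psh ρ d) * psh ρ c + psh ρ c * psh ρ d) * psh ρ c +
          (psh ρ c * psh ρ c + psh ρ d) * psh ρ d := by
    intro c d
    obtain ⟨v, ⟨hv0, hv1, hv⟩, ⟨hw0, hw1, hw⟩⟩ := hE c d
    have e2 : v 2 = c * c + d := by rw [hv 0, hv1, hv0, one_mul]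
    have e3 : v 3 = (c * c + d) * c + c * d := by rw [hv 1, e2, hv1]
    have e4 : v 4 = ((c * c + d) * c + c * d) * c + (c * c + d) * d := by
      rw [hv 2, e3, e2]
    have f2 : psh τ (v 2) = psh ρ c * psh ρ c + psh ρ d := by rw [hw 0, hw1, hw0, one_mul]
    have f3 : psh τ (v 3) = (psh ρ c * psh ρ c + psh ρ d) * psh ρ c + psh ρ c * psh ρ d := by
      rw [hw 1, f2, hw1]
    have f4 : psh τ (v 4) =
        ((psh ρ c * psh ρ c + psh ρ d) * psh ρ c + psh ρ c * psh ρ d) * psh ρ c +
          (psh ρ c * psh ρ c + psh ρ d) * psh ρ d := by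
      rw [hw 2, f3, f2]
    rw [h1] at f2 f3 f4
    rw [e2] at f2
    rw [e3] at f3
    rw [e4] at f4
    exact ⟨f2, f3, f4⟩
  -- squares
  have hsq : ∀ c : MonoidAlgebra K G, psh ρ (c * c) = psh ρ c * psh ρ c := by
    intro c
    have := (hE' c 0).1
    simpa using this
  have hcube : ∀ c : MonoidAlgebra K G, psh ρ (c * c * c) = psh ρ c * psh ρ c * psh ρ c := by
    intro c
    have := (hE' c 0).2.1
    simpa using this
  have hfour : ∀ c : MonoidAlgebra K G,
      psh ρ (c * c * c * c) = psh ρ c * psh ρ c * psh ρ c * psh ρ c := by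
    intro c
    have := (hE' c 0).2.2
    simpa using this
  have hlie : ∀ c d : MonoidAlgebra K G,
      psh ρ (d * c + c * d) = psh ρ d * psh ρ c + psh ρ c * psh ρ d := by
    intro c d
    have h := (hE' c d).2.1
    have e : (c * c + d) * c + c * d = c * c * c + (d * c + c * d) := by noncomm_ring
    have e' : (psh ρ c * psh ρ c + psh ρ d) * psh ρ c + psh ρ c * psh ρ d =
      psh ρ c * psh ρ c * psh ρ c + (psh ρ d * psh ρ c + psh ρ c * psh ρ d) := by noncomm_ring
    rw [e, e', map_add, hcube] at h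
    exact add_left_cancel h
  have h := (hE' a b).2.2
  have e : ((a * a + b) * a + a * b) * a + (a * a + b) * b =
      a * a * a * a + b * b + (b * (a * a) + (a * a) * b) + a * b * a := by noncomm_ring
  have e' : ((psh ρ a * psh ρ a + psh ρ b) * psh ρ a + psh ρ a * psh ρ b) * psh ρ a +
      (psh ρ a * psh ρ a + psh ρ b) * psh ρ b =
      psh ρ a * psh ρ a * psh ρ a * psh ρ a + psh ρ b * psh ρ b +
      (psh ρ b * (psh ρ a * psh ρ a) + (psh ρ a * psh ρ a) * psh ρ b) +
      psh ρ a * psh ρ b * psh ρ a := by noncomm_ring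
  rw [e, e', map_add, map_add, map_add, hfour, hsq, hlie, hsq] at h
  exact add_left_cancel h

end Expansion

end Pool.Agent.H461R3
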