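import Mathlib

set_option autoImplicit false

namespace Pool.Agent.H461R3

/-- A Jordan-type version of Scott's theorem on half-homomorphisms. -/
theorem half_hom {G H : Type*} [Group G] [Group H] [Fintype G] (hodd : Odd (Fintype.card G))
    (f : G → H) (finj : Function.Injective f) (h1 : f 1 = 1)
    (Q3 : ∀ a b, f (a * b * a) = f a * f b * f a)
    (Q5 : ∀ a b c, (f (a * b * c) = f a * f b * f c ∧ f (c * b * a) = f c * f b * f a) ∨
      (f (a * b * c) = f c * f b * f a ∧ f (c * b * a) = f a * f b * f c) ∨
      (f (a * b * c) = f (c * b * a) ∧ f a * f b * f c = f c * f b * f a)) :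
    (∀ a b, f (a * b) = f a * f b) ∨ (∀ a b, f (a * b) = f b * f a) := by
  -- square roots
  obtain ⟨k, hk⟩ := hodd
  have hroot : ∀ a : G, (a ^ (k + 1)) * (a ^ (k + 1)) = a := by
    intro a
    rw [← pow_add, show k + 1 + (k + 1) = (2 * k + 1) + 1 by ring, ← hk, pow_succ,
      pow_card_eq_one, one_mul]
  have hsq_comm : ∀ a b : G, a * a * b = b * (a * a) → a * b = b * a := by
    intro a b h
    have hc : Commute (a * a) b := h
    have h2 : Commute ((a * a) ^ (k + 1)) b := hc.pow_left _
    have h3 : (a * a) ^ (k + 1) = a := by
      rw [← pow_two, ← pow_mul, mul_comm 2, mul_two, pow_add]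
      exact hroot a
    rw [h3] at h2
    exact h2
  -- the two-variable version
  have Q2 : ∀ a b, (f (a * b) = f a * f b ∧ f (b * a) = f b * f a) ∨
      (f (a * b) = f b * f a ∧ f (b * a) = f a * f b) ∨
      (f (a * b) = f (b * a) ∧ f a * f b = f b * f a) := by
    intro a b
    have := Q5 a b 1
    simpa [h1] using this
  have comm_img : ∀ a b, a * b = b * a → f a * f b = f b * f a := by
    intro a b hab
    rcases Q2 a b with ⟨h, h'⟩ | ⟨h, h'⟩ | ⟨_, h'⟩
    · rw [← h, ← h', hab]
    · rw [← h, ← h', hab]
    · exact h'
  have comm_mul : ∀ a b, a * b = b * a → f (a * b) = f a * f b := by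
    intro a b hab
    set s := a ^ (k + 1) with hs
    have hss : s * s = a := hroot a
    have hsb : s * b = b * s := (Commute.pow_left (show Commute a b from hab) (k + 1))
    have e1 : a * b = s * b * s := by rw [hsb, mul_assoc, hss, hab]
    have e2 : f a = f s * f s := by
      have := Q3 s 1
      rw [mul_one, h1, mul_one, hss] at this
      exact this
    rw [e1, Q3, e2, mul_assoc, ← comm_img s b hsb, mul_assoc]
  have noncomm_img : ∀ a b, a * b ≠ b * a → f a * f b ≠ f b * f a := by
    intro a b hab hc
    apply hab
    apply finj
    rcases Q2 a b with ⟨h, h'⟩ | ⟨h, h'⟩ | ⟨h, _⟩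
    · rw [h, h', hc]
    · rw [h, h', hc]
    · exact h
  have Q2' : ∀ a b, a * b ≠ b * a → (f (a * b) = f a * f b ∧ f (b * a) = f b * f a) ∨
      (f (a * b) = f b * f a ∧ f (b * a) = f a * f b) := by
    intro a b hab
    rcases Q2 a b with h | h | ⟨h, _⟩
    · exact Or.inl h
    · exact Or.inr h
    · exact absurd (finj h) hab
  have Qor : ∀ a b, f (a * b) = f a * f b ∨ f (a * b) = f b * f a := by
    intro a b
    by_cases hab : a * b = b * a
    · exact Or.inl (comm_mul a b hab)
    · rcases Q2' a b hab with ⟨h, _⟩ | ⟨h, _⟩
      · exact Or.inl h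
      · exact Or.inr h
  -- Step 1
  have step1 : ∀ a b c, a * b ≠ b * a → a * c ≠ c * a → f (a * b) = f a * f b →
      f (a * c) = f c * f a → b * a * c = c * a * b := by
    intro a b c hab hac hp hm
    by_contra hne
    have nab := noncomm_img a b hab
    have nac := noncomm_img a c hac
    have hba : f (b * a) = f b * f a := by
      rcases Q2' a b hab with ⟨_, h⟩ | ⟨h, _⟩
      · exact h
      · exact absurd (hp.symm.trans h) nab
    have hcases : (f (b * a * c) = f b * f a * f c ∨ f (b * a * c) = f c * f a * f b) ∧
        f b * f a * f c ≠ f c * f a * f b := by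
      rcases Q5 b a c with ⟨h, h'⟩ | ⟨h, h'⟩ | ⟨h, _⟩
      · exact ⟨Or.inl h, fun hh => hne (finj (by rw [h, h', hh]))⟩
      · exact ⟨Or.inr h, fun hh => hne (finj (by rw [h, h', hh]))⟩
      · exact absurd (finj h) hne
    obtain ⟨hc1, hc2⟩ := hcases
    have c1 : f (b * a * c) = f b * f a * f c ∨ f (b * a * c) = f c * (f b * f a) := by
      have := Qor (b * a) c
      rwa [hba] at this
    have c2 : f (b * a * c) = f b * (f c * f a) ∨ f (b * a * c) = f c * f a * f b := by
      have := Qor b (a * c)
      rwa [hm, ← mul_assoc] at this
    rcases c1 with c1 | c1 <;> rcases c2 with c2 | c2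
    · apply nac
      have := c1.symm.trans c2
      rw [mul_assoc] at this
      exact mul_left_cancel this
    · exact hc2 (c1.symm.trans c2)
    · rcases hc1 with h | h
      · apply nac
        have := h.symm.trans c2
        rw [mul_assoc] at this
        exact mul_left_cancel this
      · apply nab
        have := h.symm.trans c1
        rw [mul_assoc] at this
        exact mul_left_cancel this
    · apply nab
      have := c2.symm.trans c1
      rw [mul_assoc] at this
      exact mul_left_cancel this
  -- Step 2 and 3
  have stepA : ∀ a b c, a * b ≠ b * a → a * c ≠ c * a → f (a * b) = f a * f b →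
      f (a * c) = f c * f a → False := by
    intro a b c hab hac hp hm
    have habi : a * b⁻¹ ≠ b⁻¹ * a := by
      intro h
      apply hab
      calc a * b = b * (b⁻¹ * a) * b := by group
        _ = b * (a * b⁻¹) * b := by rw [h]
        _ = b * a := by group
    have hpi : f (a * b⁻¹) = f a * f b⁻¹ := by
      rcases Q2' a b⁻¹ habi with ⟨h, _⟩ | ⟨h, _⟩
      · exact h
      · exfalso
        have e := step1 a b b⁻¹ hab habi hp h
        -- b a b⁻¹ = b⁻¹ a b
        apply hab
        symm
        apply hsq_comm b a
        calc b * b * a = b * (b * a * b⁻¹) * b := by group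
          _ = b * (b⁻¹ * a * b) * b := by rw [e]
          _ = a * (b * b) := by group
    have e1 := step1 a b c hab hac hp hm
    have e2 := step1 a b⁻¹ c habi hac hpi hm
    -- e1 : b a c = c a b ; e2 : b⁻¹ a c = c a b⁻¹
    have e3 : b * (c * a) = (c * a) * b := by
      apply hsq_comm b (c * a)
      calc b * b * (c * a) = b * b * (c * a * b⁻¹) * b := by group
        _ = b * b * (b⁻¹ * a * c) * b := by rw [e2]
        _ = (b * a * c) * b := by group
        _ = (c * a * b) * b := by rw [e1]
        _ = c * a * (b * b) := by group
    apply hac
    apply mul_left_cancel (a := b)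
    calc b * (a * c) = b * a * c := by group
      _ = c * a * b := e1
      _ = b * (c * a) := e3.symm
  -- conclusion
  by_cases hall : ∀ a b, f (a * b) = f a * f b
  · exact Or.inl hall
  · right
    push Not at hall
    obtain ⟨c, d, hcd⟩ := hall
    have hcd_nc : c * d ≠ d * c := fun h => hcd (comm_mul c d h)
    have hcdm : f (c * d) = f d * f c := by
      rcases Qor c d with h | h
      · exact absurd h hcd
      · exact h
    intro a b
    by_contra hab
    have habp : f (a * b) = f a * f b := by
      rcases Qor a b with h | h
      · exact h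
      · exact absurd h hab
    have hab_nc : a * b ≠ b * a := by
      intro h
      apply hab
      rw [comm_mul a b h, comm_img a b h]
    -- find `x` commuting with neither
    have hx : ∃ x, a * x ≠ x * a ∧ c * x ≠ x * c := by
      by_cases hbc : c * b = b * c
      · by_cases hda : a * d = d * a
        · refine ⟨b * d, ?_, ?_⟩
          · intro h
            apply hab_nc
            apply mul_right_cancel (b := d)
            calc a * b * d = a * (b * d) := by group
              _ = b * d * a := h
              _ = b * (d * a) := by group
              _ = b * (a * d) := by rw [hda]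
              _ = b * a * d := by group
          · intro h
            apply hcd_nc
            apply mul_left_cancel (a := b)
            calc b * (c * d) = (b * c) * d := by group
              _ = c * b * d := by rw [hbc]
              _ = c * (b * d) := by group
              _ = b * d * c := h
              _ = b * (d * c) := by group
        · exact ⟨d, hda, hcd_nc⟩
      · exact ⟨b, hab_nc, hbc⟩
    obtain ⟨x, hax, hcx⟩ := hx
    have hsym : ∀ u v, u * v ≠ v * u → f (u * v) = f u * f v → f (v * u) = f v * f u := by
      intro u v huv h
      rcases Q2' u v huv with ⟨_, h'⟩ | ⟨h', _⟩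
      · exact h'
      · exact absurd (h.symm.trans h') (noncomm_img u v huv)
    have haxp : f (a * x) = f a * f x := by
      rcases Qor a x with h | h
      · exact h
      · exact (stepA a b x hab_nc hax habp h).elim
    have hxap := hsym a x hax haxp
    have hxcp : f (x * c) = f x * f c := by
      rcases Qor x c with h | h
      · exact h
      · exact (stepA x a c (Ne.symm hax) (Ne.symm hcx) hxap h).elim
    have hcxp := hsym x c (Ne.symm hcx) hxcp
    exact stepA c x d hcx hcd_nc hcxp hcdm

end Pool.Agent.H461R3
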