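import Mathlib

set_option autoImplicit false

namespace Pool.Agent.H461R3

open Finset

section Jacobi

variable {K R : Type*} [CommRing K] [CommRing R] [Algebra K R] {n : Type*} [Fintype n]
  [DecidableEq n]

theorem deriv_prod (d : Derivation K R R) {ι : Type*} [DecidableEq ι] (s : Finset ι)
    (f : ι → R) : d (∏ i ∈ s, f i) = ∑ j ∈ s, (∏ i ∈ s.erase j, f i) * d (f j) := by
  induction s using Finset.induction_on with
  | empty => simp
  | insert a s ha ih =>
    rw [Finset.prod_insert ha, Derivation.leibniz, ih, Finset.sum_insert ha,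
      Finset.erase_insert ha]
    simp only [smul_eq_mul]
    rw [add_comm]
    congr 1
    rw [Finset.mul_sum]
    refine Finset.sum_congr rfl fun j hj => ?_
    have hja : j ≠ a := fun h => ha (h ▸ hj)
    rw [Finset.erase_insert_of_ne hja.symm, Finset.prod_insert]
    · ring
    · simp [ha]

theorem deriv_det_cols (d : Derivation K R R) (M : Matrix n n R) :
    d M.det = ∑ j, (M.updateCol j (fun i => d (M i j))).det := by
  simp only [Matrix.det_apply]
  rw [map_sum]
  rw [Finset.sum_comm]
  refine Finset.sum_congr rfl fun σ _ => ?_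
  rw [← Finset.smul_sum]
  have h1 : d (Equiv.Perm.sign σ • ∏ i, M (σ i) i) = Equiv.Perm.sign σ • d (∏ i, M (σ i) i) := by
    rcases Int.units_eq_one_or (Equiv.Perm.sign σ) with h | h <;> simp [h]
  rw [h1, deriv_prod]
  congr 1
  refine Finset.sum_congr rfl fun j _ => ?_
  rw [← Finset.mul_prod_erase Finset.univ _ (Finset.mem_univ j)]
  simp only [Matrix.updateCol_self]
  rw [mul_comm]
  congr 1
  refine Finset.prod_congr rfl fun i hi => ?_
  rw [Matrix.updateCol_ne (Finset.ne_of_mem_erase hi)]

/-- Jacobi's formula. -/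
theorem deriv_det (d : Derivation K R R) (M : Matrix n n R) :
    d M.det = (M.adjugate * M.map d).trace := by
  rw [deriv_det_cols, Matrix.trace]
  refine Finset.sum_congr rfl fun j _ => ?_
  rw [← Matrix.cramer_apply, Matrix.cramer_eq_adjugate_mulVec]
  simp [Matrix.mulVec, dotProduct, Matrix.mul_apply]

end Jacobi

section Reg

variable {B : Type*} [CommRing B] {Γ : Type*} [Group Γ] [Fintype Γ] [DecidableEq Γ]

variable (B Γ) in
/-- the left regular representation by matrices -/
noncomputable def regM : MonoidAlgebra B Γ →ₐ[B] Matrix Γ Γ B :=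
  Algebra.leftMulMatrix (MonoidAlgebra.basis Γ B)

theorem regM_apply (y : MonoidAlgebra B Γ) (a b : Γ) : regM B Γ y a b = y.coeff (a * b⁻¹) := by
  rw [regM, Algebra.leftMulMatrix_eq_repr_mul, MonoidAlgebra.basis_apply]
  have : (MonoidAlgebra.basis Γ B).repr (y * MonoidAlgebra.single b 1) =
    (y * MonoidAlgebra.single b 1).coeff := rfl
  rw [this, MonoidAlgebra.coeff_mul_single_apply, mul_one]

theorem regM_injective : Function.Injective (regM B Γ) :=
  Algebra.leftMulMatrix_injective _

theorem regM_trace (y : MonoidAlgebra B Γ) :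
    (regM B Γ y).trace = (Fintype.card Γ : B) * y.coeff 1 := by
  simp [Matrix.trace, regM_apply]

/-- the group determinant of an element -/
noncomputable def gdet (y : MonoidAlgebra B Γ) : B := (regM B Γ y).det

theorem gdet_mul (y z : MonoidAlgebra B Γ) : gdet (y * z) = gdet y * gdet z := by
  simp [gdet, Matrix.det_mul]

theorem gdet_one : gdet (1 : MonoidAlgebra B Γ) = 1 := by
  simp [gdet]

theorem gdet_smul_one (c : B) :
    gdet (c • (1 : MonoidAlgebra B Γ)) = c ^ Fintype.card Γ := by
  simp [gdet, Matrix.det_smul]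

theorem gdet_map {C : Type*} [CommRing C] (f : B →+* C) (y : MonoidAlgebra B Γ) :
    gdet (MonoidAlgebra.mapRingHom Γ f y) = f (gdet y) := by
  rw [gdet, gdet, RingHom.map_det]
  congr 1
  ext a b
  simp [regM_apply]

/-- the adjoint element: `x * adjE x = det x`. -/
noncomputable def adjE (x : MonoidAlgebra B Γ) : MonoidAlgebra B Γ :=
  -((-1 : B) ^ Fintype.card Γ • Polynomial.aeval x ((regM B Γ x).charpoly.divX))

theorem mul_adjE (x : MonoidAlgebra B Γ) : x * adjE x = gdet x • 1 := by
  have h0 : Polynomial.aeval x (regM B Γ x).charpoly = 0 := by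
    apply regM_injective
    rw [map_zero, ← Polynomial.aeval_algHom_apply, Matrix.aeval_self_charpoly]
  have h1 := Polynomial.divX_mul_X_add (regM B Γ x).charpoly
  rw [← h1] at h0
  rw [map_add, map_mul, Polynomial.aeval_X, Polynomial.aeval_C] at h0
  have hc : Commute x (Polynomial.aeval x (regM B Γ x).charpoly.divX) := by
    have := Polynomial.aeval_X (R := B) x
    conv_lhs => rw [← this]
    exact (Commute.all (Polynomial.X) _).map (Polynomial.aeval x)
  rw [adjE, gdet, Matrix.det_eq_sign_charpoly_coeff, mul_neg, mul_smul_comm, hc.eq]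
  have h2 : Polynomial.aeval x (regM B Γ x).charpoly.divX * x =
      - algebraMap B (MonoidAlgebra B Γ) ((regM B Γ x).charpoly.coeff 0) :=
    eq_neg_of_add_eq_zero_left h0
  rw [h2, smul_neg, neg_neg, Algebra.algebraMap_eq_smul_one, smul_smul]

theorem adjE_mul (x : MonoidAlgebra B Γ) : adjE x * x = gdet x • 1 := by
  rw [← mul_adjE]
  have : Commute x (Polynomial.aeval x (regM B Γ x).charpoly.divX) := by
    have := Polynomial.aeval_X (R := B) x
    conv_lhs => rw [← this]
    exact (Commute.all (Polynomial.X) _).map (Polynomial.aeval x)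
  rw [adjE, mul_neg, neg_mul, mul_smul_comm, smul_mul_assoc, this.eq]

theorem regM_adjE [IsDomain B] (x : MonoidAlgebra B Γ) (hx : gdet x ≠ 0) :
    (regM B Γ x).adjugate = regM B Γ (adjE x) := by
  have h1 : regM B Γ (adjE x) * regM B Γ x = gdet x • 1 := by
    rw [← map_mul, adjE_mul, map_smul, map_one]
  have h2 : (regM B Γ x).adjugate * regM B Γ x = gdet x • 1 := Matrix.adjugate_mul _
  have h3 : ((regM B Γ x).adjugate - regM B Γ (adjE x)) * regM B Γ x = 0 := by
    rw [sub_mul, h1, h2, sub_self]
  have h4 : gdet x • ((regM B Γ x).adjugate - regM B Γ (adjE x)) = 0 := by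
    have : ((regM B Γ x).adjugate - regM B Γ (adjE x)) * (regM B Γ x * (regM B Γ x).adjugate) = 0 := by
      rw [← mul_assoc, h3, zero_mul]
    rw [Matrix.mul_adjugate, mul_smul_comm, mul_one] at this
    exact this
  have h5 := (smul_eq_zero.mp h4).resolve_left hx
  exact sub_eq_zero.mp h5

end Reg

end Pool.Agent.H461R3
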