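import Pool.Agent.H461R3.Expand
import Pool.Agent.H461R3.Half

set_option autoImplicit false

namespace Pool.Agent.H461R3

open Finset Polynomial

section Min

variable (K : Type*) [Field K] {ι Γ : Type*} [Fintype ι] [DecidableEq ι]
  [Group Γ] [Fintype Γ] [DecidableEq Γ]

/-- generic element over the fraction field -/
noncomputable def genF (ρ : ι ≃ Γ) : MonoidAlgebra (FractionRing (MvPolynomial ι K)) Γ :=
  MonoidAlgebra.mapRingHom Γ (algebraMap (MvPolynomial ι K) (FractionRing (MvPolynomial ι K)))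
    (gen K ρ)

theorem aeval_genF (ρ : ι ≃ Γ) (p : (MvPolynomial ι K)[X]) :
    aeval (genF K ρ) (p.map (algebraMap (MvPolynomial ι K) (FractionRing (MvPolynomial ι K)))) =
      MonoidAlgebra.mapRingHom Γ
        (algebraMap (MvPolynomial ι K) (FractionRing (MvPolynomial ι K))) (aeval (gen K ρ) p) := by
  rw [genF]
  symm
  apply Polynomial.map_aeval_eq_aeval_map
  ext r g
  · simp [Algebra.algebraMap_eq_smul_one, MonoidAlgebra.one_def]
  · simp [Algebra.algebraMap_eq_smul_one, MonoidAlgebra.one_def]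

theorem aeval_charpoly_gen (ρ : ι ≃ Γ) :
    aeval (gen K ρ) (regM (MvPolynomial ι K) Γ (gen K ρ)).charpoly = 0 := by
  apply regM_injective
  rw [map_zero, ← Polynomial.aeval_algHom_apply, Matrix.aeval_self_charpoly]

theorem isIntegral_genF (ρ : ι ≃ Γ) :
    IsIntegral (FractionRing (MvPolynomial ι K)) (genF K ρ) := by
  refine ⟨(regM (MvPolynomial ι K) Γ (gen K ρ)).charpoly.map
    (algebraMap (MvPolynomial ι K) (FractionRing (MvPolynomial ι K))),
    (Matrix.charpoly_monic _).map _, ?_⟩
  have := aeval_genF K ρ (regM (MvPolynomial ι K) Γ (gen K ρ)).charpoly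
  rw [aeval_charpoly_gen, map_zero] at this
  exact this

theorem minpoly_facts (ρ : ι ≃ Γ) :
    ∃ P : (MvPolynomial ι K)[X],
      P.map (algebraMap (MvPolynomial ι K) (FractionRing (MvPolynomial ι K))) =
        minpoly (FractionRing (MvPolynomial ι K)) (genF K ρ) ∧
      P.coeff 0 ∣ gdet (gen K ρ) ∧ gdet (gen K ρ) ∣ (P.coeff 0) ^ Fintype.card Γ := by
  set F := FractionRing (MvPolynomial ι K) with hF
  set C := (regM (MvPolynomial ι K) Γ (gen K ρ)).charpoly with hC
  have hmon : C.Monic := Matrix.charpoly_monic _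
  have hinj : Function.Injective (algebraMap (MvPolynomial ι K) F) :=
    IsFractionRing.injective _ _
  have hdvd : minpoly F (genF K ρ) ∣ C.map (algebraMap (MvPolynomial ι K) F) := by
    apply minpoly.dvd
    rw [aeval_genF, hC, aeval_charpoly_gen, map_zero]
  have hPm : (minpoly F (genF K ρ)).Monic := minpoly.monic (isIntegral_genF K ρ)
  obtain ⟨P, hP⟩ := IsIntegrallyClosed.eq_map_mul_C_of_dvd F hmon hdvd
  rw [hPm.leadingCoeff, Polynomial.C_1, mul_one] at hP
  obtain ⟨Q0, hQ0⟩ := hdvd
  have hQm : Q0.Monic := by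
    apply hPm.of_mul_monic_left
    rw [← hQ0]
    exact hmon.map _
  obtain ⟨Q, hQ⟩ := IsIntegrallyClosed.eq_map_mul_C_of_dvd F hmon
    (show Q0 ∣ C.map (algebraMap (MvPolynomial ι K) F) from ⟨_, by rw [hQ0, mul_comm]⟩)
  rw [hQm.leadingCoeff, Polynomial.C_1, mul_one] at hQ
  have hCPQ : C = P * Q := by
    apply Polynomial.map_injective _ hinj
    rw [Polynomial.map_mul, hP, hQ, hQ0]
  refine ⟨P, hP, ?_, ?_⟩
  · rw [gdet, Matrix.det_eq_sign_charpoly_coeff, ← hC, hCPQ, Polynomial.mul_coeff_zero]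
    exact ⟨(-1) ^ Fintype.card Γ * Q.coeff 0, by ring⟩
  · have hz : aeval (gen K ρ) P = 0 := by
      have h1 := aeval_genF K ρ P
      rw [hP, minpoly.aeval] at h1
      apply MonoidAlgebra.map_injective (algebraMap (MvPolynomial ι K) F).toAddMonoidHom hinj
      exact h1.symm.trans (map_zero (MonoidAlgebra.mapRingHom Γ
        (algebraMap (MvPolynomial ι K) F))).symm
    rw [← Polynomial.divX_mul_X_add P, map_add, map_mul, Polynomial.aeval_X,
      Polynomial.aeval_C] at hz
    have h2 : aeval (gen K ρ) P.divX * gen K ρ = (-(P.coeff 0)) • 1 := by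
      rw [neg_smul, ← Algebra.algebraMap_eq_smul_one]
      exact eq_neg_of_add_eq_zero_left hz
    have h3 := congrArg gdet h2
    rw [gdet_mul, gdet_smul_one, neg_pow] at h3
    have h4 : gdet (gen K ρ) ∣ (-1) ^ Fintype.card Γ * (P.coeff 0) ^ Fintype.card Γ :=
      ⟨_, by rw [← h3, mul_comm]⟩
    have h5 : P.coeff 0 ^ Fintype.card Γ =
        (-1) ^ Fintype.card Γ * ((-1) ^ Fintype.card Γ * (P.coeff 0) ^ Fintype.card Γ) := by
      rw [← mul_assoc, ← mul_pow]
      simp
    rw [h5]
    exact h4.mul_left _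

/-- the augmentation of the generic element is a root of the generic minimal polynomial -/
theorem eval_aug (ρ : ι ≃ Γ) :
    (minpoly (FractionRing (MvPolynomial ι K)) (genF K ρ)).eval
      (∑ i, algebraMap (MvPolynomial ι K) (FractionRing (MvPolynomial ι K))
        (MvPolynomial.X i)) = 0 := by
  let ε : MonoidAlgebra (FractionRing (MvPolynomial ι K)) Γ →ₐ[FractionRing (MvPolynomial ι K)]
      FractionRing (MvPolynomial ι K) :=
    MonoidAlgebra.lift (FractionRing (MvPolynomial ι K)) (FractionRing (MvPolynomial ι K)) Γ 1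
  have h1 : ε (genF K ρ) = ∑ i, algebraMap (MvPolynomial ι K) (FractionRing (MvPolynomial ι K))
        (MvPolynomial.X i) := by
    rw [genF, gen, map_sum, map_sum]
    refine Finset.sum_congr rfl fun i _ => ?_
    rw [MonoidAlgebra.mapRingHom_single]
    simp [ε]
  rw [← h1]
  have h2 := Polynomial.aeval_algHom_apply ε (genF K ρ)
    (minpoly (FractionRing (MvPolynomial ι K)) (genF K ρ))
  rw [minpoly.aeval, map_zero] at h2
  exact h2

end Min

section Final

variable {K : Type*} [Field K] [CharP K 2] {G H : Type*} [Group G] [Group H] [Fintype G]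
  [Fintype H] [DecidableEq G] [DecidableEq H]

theorem minpoly_eq (π : G ≃ H)
    (hdeg : (minpoly (FractionRing (MvPolynomial G K)) (genF K (Equiv.refl G))).natDegree =
      (minpoly (FractionRing (MvPolynomial G K)) (genF K π)).natDegree)
    (hco : ∀ j : ℕ, 1 ≤ j →
      j < (minpoly (FractionRing (MvPolynomial G K)) (genF K (Equiv.refl G))).natDegree →
      (minpoly (FractionRing (MvPolynomial G K)) (genF K (Equiv.refl G))).coeff j =
      (minpoly (FractionRing (MvPolynomial G K)) (genF K π)).coeff j) :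
    minpoly (FractionRing (MvPolynomial G K)) (genF K (Equiv.refl G)) =
      minpoly (FractionRing (MvPolynomial G K)) (genF K π) := by
  set P := minpoly (FractionRing (MvPolynomial G K)) (genF K (Equiv.refl G)) with hP
  set Q := minpoly (FractionRing (MvPolynomial G K)) (genF K π) with hQ
  have hPm : P.Monic := minpoly.monic (isIntegral_genF K _)
  have hQm : Q.Monic := minpoly.monic (isIntegral_genF K _)
  have hco' : ∀ j, 1 ≤ j → P.coeff j = Q.coeff j := by
    intro j hj
    rcases lt_trichotomy j P.natDegree with h | h | h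
    · exact hco j hj h
    · have h1 : P.coeff j = 1 := by rw [h]; exact hPm.coeff_natDegree
      have h2 : Q.coeff j = 1 := by rw [h, hdeg]; exact hQm.coeff_natDegree
      rw [h1, h2]
    · rw [Polynomial.coeff_eq_zero_of_natDegree_lt h,
        Polynomial.coeff_eq_zero_of_natDegree_lt (hdeg ▸ h)]
  have hsub : P - Q = Polynomial.C (P.coeff 0 - Q.coeff 0) := by
    ext j
    rcases Nat.eq_zero_or_pos j with h | h
    · subst h; simp
    · rw [Polynomial.coeff_sub, hco' j h, sub_self, Polynomial.coeff_C_of_ne_zero h.ne']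
  have hz : P.coeff 0 - Q.coeff 0 = 0 := by
    have h1 := eval_aug K (Equiv.refl G)
    have h2 := eval_aug K π
    have h3 := congrArg (Polynomial.eval (∑ i, algebraMap (MvPolynomial G K)
      (FractionRing (MvPolynomial G K)) (MvPolynomial.X i))) hsub
    rw [Polynomial.eval_sub, h1, h2, sub_zero, Polynomial.eval_C] at h3
    exact h3.symm
  rw [hz, Polynomial.C_0] at hsub
  exact sub_eq_zero.mp hsub

theorem prime_dvd_iff (π : G ≃ H)
    (hmin : minpoly (FractionRing (MvPolynomial G K)) (genF K (Equiv.refl G)) =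
      minpoly (FractionRing (MvPolynomial G K)) (genF K π))
    (p : MvPolynomial G K) (hp : Prime p) :
    p ∣ gdet (gen K (Equiv.refl G)) ↔ p ∣ gdet (gen K π) := by
  obtain ⟨P, hP, hP1, hP2⟩ := minpoly_facts K (Equiv.refl G)
  obtain ⟨Q, hQ, hQ1, hQ2⟩ := minpoly_facts K π
  have hPQ : P = Q := by
    apply Polynomial.map_injective _
      (IsFractionRing.injective (MvPolynomial G K) (FractionRing (MvPolynomial G K)))
    rw [hP, hQ, hmin]
  subst hPQ
  constructor
  · intro h
    exact (hp.dvd_of_dvd_pow (h.trans hP2)).trans hQ1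
  · intro h
    exact (hp.dvd_of_dvd_pow (h.trans hQ2)).trans hP1

theorem iso_of_prime_dvd (hodd : Odd (Fintype.card G))
    (hcard : Fintype.card G = Fintype.card H) (π : G ≃ H)
    (hd : ∀ p : MvPolynomial G K, Prime p →
      (p ∣ gdet (gen K (Equiv.refl G)) ↔ p ∣ gdet (gen K π))) :
    Nonempty (G ≃* H) := by
  -- normalise
  let ρ : G ≃ H := π.trans (Equiv.mulLeft (π 1)⁻¹)
  have hρ : ∀ g, ρ g = (π 1)⁻¹ * π g := fun g => rfl
  have hρ1 : ρ 1 = 1 := by rw [hρ, inv_mul_cancel]
  have hgen : gen K ρ = MonoidAlgebra.single (π 1)⁻¹ 1 * gen K π := by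
    rw [gen, gen, Finset.mul_sum]
    refine Finset.sum_congr rfl fun i _ => ?_
    rw [MonoidAlgebra.single_mul_single, one_mul, hρ]
  have hunit : IsUnit (gdet (MonoidAlgebra.single (π 1)⁻¹ (1 : MvPolynomial G K))) := by
    refine IsUnit.of_mul_eq_one (gdet (MonoidAlgebra.single (π 1) (1 : MvPolynomial G K))) ?_
    rw [← gdet_mul, MonoidAlgebra.single_mul_single, inv_mul_cancel, one_mul,
      ← MonoidAlgebra.one_def, gdet_one]
  have hd' : ∀ p : MvPolynomial G K, Prime p →
      (p ∣ gdet (gen K (Equiv.refl G)) ↔ p ∣ gdet (gen K ρ)) := by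
    intro p hp
    rw [hd p hp, hgen, gdet_mul]
    exact (hunit.dvd_mul_left).symm
  have hJ := jordan hodd hcard ρ hρ1 hd'
  have Q3 : ∀ a b, ρ (a * b * a) = ρ a * ρ b * ρ a := by
    intro a b
    have h := hJ (MonoidAlgebra.single a 1) (MonoidAlgebra.single b 1)
    simp only [MonoidAlgebra.single_mul_single, psh_single, mul_one] at h
    exact (MonoidAlgebra.single_left_inj one_ne_zero).mp h
  have hS : ∀ a b c, MonoidAlgebra.single (ρ (a * b * c)) (1 : K) +
      MonoidAlgebra.single (ρ (c * b * a)) 1 =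
      MonoidAlgebra.single (ρ a * ρ b * ρ c) 1 + MonoidAlgebra.single (ρ c * ρ b * ρ a) 1 := by
    intro a b c
    have h := hJ (MonoidAlgebra.single a 1 + MonoidAlgebra.single c 1) (MonoidAlgebra.single b 1)
    have e : (MonoidAlgebra.single a (1 : K) + MonoidAlgebra.single c 1) *
        MonoidAlgebra.single b 1 * (MonoidAlgebra.single a 1 + MonoidAlgebra.single c 1) =
        MonoidAlgebra.single (a * b * a) 1 + MonoidAlgebra.single (c * b * c) 1 +
        (MonoidAlgebra.single (a * b * c) 1 + MonoidAlgebra.single (c * b * a) 1) := by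
      simp only [add_mul, mul_add, MonoidAlgebra.single_mul_single, mul_one]
      abel
    have e' : (MonoidAlgebra.single (ρ a) (1 : K) + MonoidAlgebra.single (ρ c) 1) *
        MonoidAlgebra.single (ρ b) 1 *
          (MonoidAlgebra.single (ρ a) 1 + MonoidAlgebra.single (ρ c) 1) =
        MonoidAlgebra.single (ρ a * ρ b * ρ a) 1 + MonoidAlgebra.single (ρ c * ρ b * ρ c) 1 +
        (MonoidAlgebra.single (ρ a * ρ b * ρ c) 1 +
          MonoidAlgebra.single (ρ c * ρ b * ρ a) 1) := by
      simp only [add_mul, mul_add, MonoidAlgebra.single_mul_single, mul_one]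
      abel
    rw [e] at h
    simp only [map_add, psh_single] at h
    rw [e', Q3, Q3] at h
    exact add_left_cancel h
  have Q5 : ∀ a b c, (ρ (a * b * c) = ρ a * ρ b * ρ c ∧ ρ (c * b * a) = ρ c * ρ b * ρ a) ∨
      (ρ (a * b * c) = ρ c * ρ b * ρ a ∧ ρ (c * b * a) = ρ a * ρ b * ρ c) ∨
      (ρ (a * b * c) = ρ (c * b * a) ∧ ρ a * ρ b * ρ c = ρ c * ρ b * ρ a) := by
    intro a b c
    rcases (MonoidAlgebra.single_add_single_inj one_ne_zero one_ne_zero).mp (hS a b c) with
      ⟨h, h'⟩ | ⟨_, h, h'⟩ | ⟨_, h, h'⟩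
    · exact Or.inl ⟨h, h'⟩
    · exact Or.inr (Or.inl ⟨h, h'⟩)
    · exact Or.inr (Or.inr ⟨h, h'⟩)
  rcases half_hom hodd ρ ρ.injective hρ1 Q3 Q5 with h | h
  · exact ⟨{ ρ with map_mul' := h }⟩
  · exact ⟨{ ρ.trans (Equiv.inv H) with
      map_mul' := fun a b => by
        show (ρ (a * b))⁻¹ = (ρ a)⁻¹ * (ρ b)⁻¹
        rw [h, mul_inv_rev] }⟩

end Final

end Pool.Agent.H461R3
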